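import Pool.Agent.Q265.BD.C
import Pool.Agent.Q265.BM.Lat

/-!
# The truncated Vojta inequality for points of bounded degree on the projective line

Let `D` be a finite set of `K`-rational points of the projective line, containing `∞`, and let `f` be
a rational function over the number field `K` which is unramified outside `D` (with `f(∞) ∈ D`). The
truncated Vojta inequality (with the logarithmic discriminant) for `D` at the points `f(t)`, where `t`
has degree at most `r` over `K`, implies this inequality for the rational points over `D` at the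
points of degree at most `r`. If `f(D) ⊆ D`, then the inequality for `D` at all points of degree at
most `r` is equivalent to the inequality at the values of an iterate `f^n` at the points of degree at
most `r`, for every `n`.
-/

set_option autoImplicit false

open NumberField Polynomial Height IntermediateField

namespace Pool.Agent.Results.MP_44a246_nt.TruncatedInBoundedDegree

variable {K : Type} [Field K] [NumberField K]

instance finiteDim (t : AlgebraicClosure K) : FiniteDimensional K K⟮t⟯ :=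
  adjoin.finiteDimensional (Algebra.IsIntegral.isIntegral t)

instance numberField (t : AlgebraicClosure K) : NumberField K⟮t⟯ :=
  NumberField.of_module_finite K K⟮t⟯

/-- the degree `[K(t) : K]` of the algebraic number `t` -/
noncomputable def deg (t : AlgebraicClosure K) : ℕ := Module.finrank K K⟮t⟯

/-- the height of `t` relative to `K` -/
noncomputable def height (t : AlgebraicClosure K) : ℝ :=
  logHeight₁ (AdjoinSimple.gen K t) / deg t

/-- The points `[t : 1]` and `[a : 1]` coincide modulo the prime of `w`. -/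
def Meets {L : Type} [Field L] [NumberField L] (w : FinitePlace L) (a t : L) : Prop :=
  w (t - a) < max (w t) 1 * max (w a) 1

/-- The place `w` of `L` lies over `S`. -/
def Over (S : Finset (FinitePlace K)) {L : Type} [Field L] [NumberField L] [Algebra K L]
    (w : FinitePlace L) : Prop :=
  ∃ v ∈ S, w.maximalIdeal.asIdeal.LiesOver v.maximalIdeal.asIdeal

/-- The truncated counting function `N_S⁽¹⁾(D, t)` for `D = {a 1, …, a m, ∞}`: the sum of
`log N(𝔭) / [K(t) : K]` over the primes of `K(t)` not lying over `S` at which `t` meets `D`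
(`t` meets `∞` if `1 < w t`). -/
noncomputable def N1 (S : Finset (FinitePlace K)) {m : ℕ} (a : Fin m → K)
    (t : AlgebraicClosure K) : ℝ :=
  (∑ᶠ w ∈ {w : FinitePlace K⟮t⟯ | ¬ Over S w ∧
      ((∃ i, Meets w (algebraMap K K⟮t⟯ (a i)) (AdjoinSimple.gen K t)) ∨
        1 < w (AdjoinSimple.gen K t))},
    Real.log ((Ideal.absNorm w.maximalIdeal.asIdeal : ℕ) : ℝ)) / deg t

/-- The logarithmic discriminant of `L = K(t)` over `K`: the logarithm of the norm of the
discriminant of `L / K` is `log |disc L| - [L : K] log |disc K|`. -/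
noncomputable def logDisc (t : AlgebraicClosure K) : ℝ :=
  Real.log |(discr K⟮t⟯ : ℝ)| / deg t - Real.log |(discr K : ℝ)|

/-- The truncated Vojta inequality on the projective line for the divisor `D = {a 1, …, a m, ∞}`,
where `K_X + D` has degree `m + 1 - 2`, all `S` and all `ε`, at the points `t` of the set `T` outside
`D` which have degree at most `r` over `K`. -/
def Vojta (r : ℕ) {m : ℕ} (a : Fin m → K) (T : Set (AlgebraicClosure K)) : Prop :=
  ∀ S : Finset (FinitePlace K), ∀ ε : ℝ, 0 < ε → ∃ C : ℝ, ∀ t ∈ T, deg t ≤ r →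
    (∀ i, t ≠ algebraMap K (AlgebraicClosure K) (a i)) →
      (((m + 1 : ℕ) : ℝ) - 2) * height t ≤ N1 S a t + ε * height t + logDisc t + C

/-- The rational function `f = p / q` has degree `d ≥ 1`, and there are at most `d (k - 1) + 1`
points other than `∞` over the algebraic closure which `f` maps to `D = {b 1, …, b k, ∞}`. By the
formula of Riemann and Hurwitz this means that `f` is unramified outside `D` and that `f(∞) ∈ D`. -/
def IsUnramified (p q : K[X]) (d : ℕ) {k : ℕ} (b : Fin k → K) : Prop :=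
  IsCoprime p q ∧ 1 ≤ d ∧ p.natDegree ≤ d ∧ q.natDegree ≤ d ∧ (p.natDegree = d ∨ q.natDegree = d) ∧
    ((q * ∏ j, (p - C (b j) * q)).rootSet (AlgebraicClosure K)).ncard ≤ d * (k - 1) + 1

/-- the values of `f = p / q` on the set `T` -/
def Values (p q : K[X]) (T : Set (AlgebraicClosure K)) : Set (AlgebraicClosure K) :=
  {y | ∃ t ∈ T, aeval t q ≠ 0 ∧ y = aeval t p / aeval t q}

/-- the values of the `n`-th iterate of `f = p / q` at the points of degree at most `r` -/
def Iter (r : ℕ) (p q : K[X]) : ℕ → Set (AlgebraicClosure K)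
  | 0 => {t | deg t ≤ r}
  | n + 1 => Values p q (Iter r p q n)

theorem sum_eq {L : Type} [Field L] [NumberField L] (T : Set (FinitePlace L)) :
    (∑ᶠ v ∈ T, Real.log ((Ideal.absNorm v.maximalIdeal.asIdeal : ℕ) : ℝ)) =
      Real.log (Q265.NF.PP T) := by
  unfold Q265.NF.PP
  rw [Real.log_finprod (fun v => lt_of_lt_of_le one_pos (Q241.AK.one_le_pr _ v))]
  refine finsum_congr fun v => ?_
  classical
  rw [finsum_eq_if]
  unfold Q241.AK.pr Q241.AK.N
  by_cases hv : v ∈ T
  · rw [if_pos hv, if_pos hv]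
  · rw [if_neg hv, if_neg hv, Real.log_one]

theorem N1_eq (S : Finset (FinitePlace K)) {m : ℕ} (a : Fin m → K) (t : AlgebraicClosure K) :
    N1 S a t = Real.log (Q265.NF.PP (Q265.BD.UsA (Q265.BD.Ab S K⟮t⟯)
      (fun i => algebraMap K K⟮t⟯ (a i)) (AdjoinSimple.gen K t))) / deg t := by
  unfold N1
  rw [sum_eq]
  rfl

theorem eval_coe (P : K[X]) (t : AlgebraicClosure K) :
    (((P.map (algebraMap K K⟮t⟯)).eval (AdjoinSimple.gen K t) : K⟮t⟯) : AlgebraicClosure K) =
      aeval t P := by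
  have h1 : (P.map (algebraMap K K⟮t⟯)).eval (AdjoinSimple.gen K t) =
      aeval (AdjoinSimple.gen K t) P := by
    rw [eval_map_algebraMap]
  rw [h1]
  have h2 := aeval_algebraMap_apply (AlgebraicClosure K) (AdjoinSimple.gen K t) P
  rw [AdjoinSimple.algebraMap_gen] at h2
  exact h2.symm

theorem main {p q : K[X]} {d : ℕ} {k : ℕ} (hk : 2 ≤ k) {b : Fin k → K}
    (hf : IsUnramified p q d b) (r : ℕ) (T : Set (AlgebraicClosure K)) {m : ℕ} (a : Fin m → K)
    (ha1 : Function.Injective a) (ha2 : ∀ i, (q * ∏ j, (p - C (b j) * q)).eval (a i) = 0)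
    (H : Vojta r b (Values p q {t | t ∈ T ∧ deg t ≤ r})) : Vojta r a T := by
  obtain ⟨h1, h2, h3, h4, h5, h6⟩ := hf
  have hq0 : q ≠ 0 := by
    rintro rfl
    have e2 := natDegree_eq_zero_of_isUnit (isCoprime_zero_right.1 h1)
    rw [natDegree_zero] at h5
    omega
  have hpj : ∀ j, p - C (b j) * q ≠ 0 := by
    intro j h
    have h7 : p = C (b j) * q := sub_eq_zero.1 h
    have hu : IsUnit q := by
      rw [h7] at h1
      exact isCoprime_self.1 (IsCoprime.of_mul_left_right h1)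
    have e2 := natDegree_eq_zero_of_isUnit hu
    have e3 : p.natDegree = 0 := by
      rw [h7]
      have := natDegree_C_mul_le (b j) q
      omega
    omega
  have hne : q * ∏ j, (p - C (b j) * q) ≠ 0 :=
    mul_ne_zero hq0 (Finset.prod_ne_zero_iff.2 fun j _ => hpj j)
  obtain ⟨rr, NN, hr1, hr2, hr3⟩ := Q265.BM.exists_rad hne h6
  obtain ⟨n, C, hmn, hC, step⟩ := Q265.BD.stepA h2 h1 h3 h4 h5 b hr1 hr2 hne hr3 a ha1 ha2
  intro S ε hε
  have hdr : (1 : ℝ) ≤ d := by exact_mod_cast h2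
  have hkr : (2 : ℝ) ≤ k := by exact_mod_cast hk
  obtain ⟨ε', hε'⟩ : ∃ ε' : ℝ, ε' = min (ε / d) 1 := ⟨_, rfl⟩
  have hε'0 : 0 < ε' := by rw [hε']; positivity
  have hε'1 : ε' ≤ 1 := by rw [hε']; exact min_le_right _ _
  have hε'd : ε' * d ≤ ε := by
    have : ε' ≤ ε / d := by rw [hε']; exact min_le_left _ _
    rwa [le_div_iff₀ (by linarith)] at this
  obtain ⟨C0, h0⟩ := H S ε' hε'0
  obtain ⟨DK, hDK⟩ : ∃ DK : ℝ, DK = Module.finrank ℚ K := ⟨_, rfl⟩
  have hDK0 : 0 ≤ DK := by rw [hDK]; positivity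
  obtain ⟨δK, hδK⟩ : ∃ δK : ℝ, δK = Real.log |(discr K : ℝ)| := ⟨_, rfl⟩
  have hlogd : ∀ (L : Type) [Field L] [NumberField L], 0 ≤ Real.log |(discr L : ℝ)| := by
    intro L _ _
    refine Real.log_nonneg ?_
    have := Int.one_le_abs (NumberField.discr_ne_zero L)
    exact_mod_cast this
  have hδK0 : 0 ≤ δK := by rw [hδK]; exact hlogd K
  refine ⟨|C0| + (k + 1) * (DK * C) + |(m : ℝ) - 1 - ε| * (DK * C) + δK,
    fun t htT htr hta => ?_⟩
  -- the field of t
  obtain ⟨τ, hτ⟩ : ∃ τ : K⟮t⟯, τ = AdjoinSimple.gen K t := ⟨_, rfl⟩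
  have hcoe : (τ : AlgebraicClosure K) = t := by rw [hτ]; exact AdjoinSimple.coe_gen K t
  obtain ⟨n0, hn0⟩ : ∃ n0 : ℝ, n0 = deg t := ⟨_, rfl⟩
  have hn0p : 0 < n0 := by
    rw [hn0]
    unfold deg
    exact_mod_cast Module.finrank_pos
  have hta' : ∀ i, τ ≠ algebraMap K K⟮t⟯ (a i) := by
    intro i h
    apply hta i
    rw [← hcoe, h]
    rfl
  obtain ⟨s1, s2⟩ := step K⟮t⟯ τ hta'
  have hfin : (Module.finrank ℚ K⟮t⟯ : ℝ) = DK * n0 := by
    rw [← Module.finrank_mul_finrank ℚ K K⟮t⟯, hDK, hn0]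
    push_cast
    rfl
  rw [hfin] at s1 s2
  obtain ⟨hh, hhh⟩ : ∃ hh : ℝ, hh = height t := ⟨_, rfl⟩
  have hH : logHeight₁ τ = n0 * hh := by
    rw [hhh]
    unfold height
    rw [hτ, ← hn0]
    field_simp
  have hh0 : 0 ≤ hh := by
    rw [hhh]
    unfold height
    have := zero_le_logHeight₁ (AdjoinSimple.gen K t)
    positivity
  rw [hH] at s1 s2
  obtain ⟨U, hU⟩ : ∃ U : ℝ, U = Real.log (Q265.NF.PP (Q265.BD.UsA (Q265.BD.Ab S K⟮t⟯)
      (fun i => algebraMap K K⟮t⟯ (a i)) τ)) := ⟨_, rfl⟩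
  have hU0 : 0 ≤ U := by rw [hU]; exact Q265.BM.log_PP_nonneg _
  obtain ⟨δ, hδ⟩ : ∃ δ : ℝ, δ = Real.log |(discr K⟮t⟯ : ℝ)| := ⟨_, rfl⟩
  have hδ0 : 0 ≤ δ := by rw [hδ]; exact hlogd _
  have hgoal : N1 S a t + ε * height t + logDisc t = U / n0 + ε * hh + (δ / n0 - δK) := by
    rw [N1_eq, hU, hhh, hτ, hn0, hδ, hδK]
    rfl
  rw [← hhh] at hgoal ⊢
  rw [hgoal]
  have hUn : 0 ≤ U / n0 := by positivity
  have hδn : 0 ≤ δ / n0 := by positivity
  have hb0 := le_abs_self C0
  have hb1 := abs_nonneg C0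
  have hDC : 0 ≤ DK * C := by positivity
  have hb2 : 0 ≤ (k + 1) * (DK * C) := by positivity
  have hb3 : 0 ≤ |(m : ℝ) - 1 - ε| * (DK * C) := by positivity
  push_cast
  by_cases hdegen : ((q * ∏ j, (p - Polynomial.C (b j) * q)).map (algebraMap K K⟮t⟯)).eval τ = 0
  · have k1 := s1 hdegen
    have k2 : hh ≤ DK * C := by
      have e : DK * n0 * C = n0 * (DK * C) := by ring
      rw [e] at k1
      exact le_of_mul_le_mul_left k1 hn0p
    have k3 : ((m : ℝ) - 1 - ε) * hh ≤ |(m : ℝ) - 1 - ε| * (DK * C) :=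
      (mul_le_mul_of_nonneg_right (le_abs_self _) hh0).trans
        (mul_le_mul_of_nonneg_left k2 (abs_nonneg _))
    linarith
  · obtain ⟨hqt, s3⟩ := s2 hdegen
    obtain ⟨y, hy⟩ : ∃ y : K⟮t⟯, y = (p.map (algebraMap K K⟮t⟯)).eval τ /
      (q.map (algebraMap K K⟮t⟯)).eval τ := ⟨_, rfl⟩
    obtain ⟨s4, s5, s6⟩ := s3 y hy
    have s7 := s6 (Q265.BD.Ab S K⟮t⟯)
    rw [← hU] at s7
    -- the value
    obtain ⟨y0, hy0⟩ : ∃ y0 : AlgebraicClosure K, y0 = aeval t p / aeval t q := ⟨_, rfl⟩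
    have hyy : (y : AlgebraicClosure K) = y0 := by
      rw [hy, hy0, ← eval_coe p t, ← eval_coe q t, hτ]
      exact map_div₀ (algebraMap K⟮t⟯ (AlgebraicClosure K)) _ _
    have hq0' : aeval t q ≠ 0 := by
      rw [← eval_coe q t, ← hτ]
      intro h
      apply hqt
      exact_mod_cast h
    have hle : K⟮y0⟯ ≤ K⟮t⟯ := by
      rw [adjoin_simple_le_iff, ← hyy]
      exact y.2
    obtain ⟨f, hf⟩ : ∃ f : K⟮y0⟯ →ₐ[K] K⟮t⟯, f = inclusion hle := ⟨_, rfl⟩
    have hfy : f (AdjoinSimple.gen K y0) = y := by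
      rw [hf]
      apply Subtype.ext
      rw [coe_inclusion, AdjoinSimple.coe_gen, hyy]
    have hdeg : deg y0 ≤ deg t := by
      unfold deg
      exact LinearMap.finrank_le_finrank_of_injective (f := f.toLinearMap) f.injective
    have hyb : ∀ j, y0 ≠ algebraMap K (AlgebraicClosure K) (b j) := by
      intro j h
      apply s4 j
      apply Subtype.ext
      rw [hyy, h]
      rfl
    obtain ⟨g1, g2⟩ := Q265.BD.glue f S b (y := AdjoinSimple.gen K y0) (by rw [hfy]; exact s4)
    rw [hfy] at g1 g2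
    have h7 := h0 y0 ⟨t, ⟨htT, htr⟩, hq0', hy0⟩ (hdeg.trans htr) hyb
    rw [N1_eq] at h7
    unfold height logDisc at h7
    unfold deg at h7 hn0
    obtain ⟨A', hA'⟩ : ∃ A' : ℝ, A' = Real.log (Q265.NF.PP (Q265.BD.UsA (Q265.BD.Ab S K⟮y0⟯)
      (fun j => algebraMap K K⟮y0⟯ (b j)) (AdjoinSimple.gen K y0))) := ⟨_, rfl⟩
    obtain ⟨A, hA⟩ : ∃ A : ℝ, A = Real.log (Q265.NF.PP (Q265.BD.UsA (Q265.BD.Ab S K⟮t⟯)
      (fun j => algebraMap K K⟮t⟯ (b j)) y)) := ⟨_, rfl⟩
    obtain ⟨δ', hδ'⟩ : ∃ δ' : ℝ, δ' = Real.log |(discr K⟮y0⟯ : ℝ)| := ⟨_, rfl⟩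
    obtain ⟨n', hn'⟩ : ∃ n' : ℝ, n' = Module.finrank K K⟮y0⟯ := ⟨_, rfl⟩
    have hn'p : 0 < n' := by
      rw [hn']
      exact_mod_cast Module.finrank_pos
    obtain ⟨H', hH'⟩ : ∃ H' : ℝ, H' = logHeight₁ (AdjoinSimple.gen K y0) := ⟨_, rfl⟩
    obtain ⟨HL, hHL⟩ : ∃ HL : ℝ, HL = logHeight₁ y := ⟨_, rfl⟩
    rw [← hA', ← hδ', ← hn', ← hH', ← hδK] at h7
    rw [← hA', ← hδ', ← hA, ← hn', ← hδ, ← hn0] at g1
    rw [← hn', ← hn0, ← hHL, ← hH'] at g2
    rw [← hHL] at s5
    rw [← hA] at s7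
    push_cast at h7
    -- arithmetic
    have m1 : ((k : ℝ) - 1 - ε') * H' ≤ A' + δ' + n' * (C0 - δK) := by
      have e1 : n' * (((k : ℝ) + 1 - 2) * (H' / n')) = ((k : ℝ) - 1) * H' := by
        field_simp
        ring
      have e2 : n' * (A' / n' + ε' * (H' / n') + (δ' / n' - δK) + C0) =
          A' + ε' * H' + δ' + n' * (C0 - δK) := by
        field_simp
        ring
      have := mul_le_mul_of_nonneg_left h7 hn'p.le
      rw [e1, e2] at this
      linarith
    have m2 : ((k : ℝ) - 1 - ε') * HL ≤ δ + A + n0 * (C0 - δK) := by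
      have e3 : n' * (((k : ℝ) - 1 - ε') * HL) = ((k : ℝ) - 1 - ε') * (n0 * H') := by
        rw [← g2]
        ring
      have e4 : ((k : ℝ) - 1 - ε') * (n0 * H') ≤ n0 * (A' + δ' + n' * (C0 - δK)) := by
        have := mul_le_mul_of_nonneg_left m1 hn0p.le
        linarith
      have e5 : n' * (((k : ℝ) - 1 - ε') * HL) ≤ n' * (δ + A + n0 * (C0 - δK)) := by
        rw [e3]
        linarith
      exact le_of_mul_le_mul_left e5 hn'p
    have hε1 : 0 ≤ (k : ℝ) - 1 - ε' := by linarith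
    have m3 : ((k : ℝ) - 1 - ε') * (d * (n0 * hh) - DK * n0 * C) ≤ ((k : ℝ) - 1 - ε') * HL :=
      mul_le_mul_of_nonneg_left (by linarith) hε1
    have m4 : n0 * (((k : ℝ) - 1 - ε') * (d * hh - DK * C)) ≤
        n0 * (δ / n0 + U / n0 + n * hh + DK * C + (C0 - δK)) := by
      have e6 : n0 * (((k : ℝ) - 1 - ε') * (d * hh - DK * C)) =
          ((k : ℝ) - 1 - ε') * (d * (n0 * hh) - DK * n0 * C) := by ring
      have e7 : n0 * (δ / n0 + U / n0 + n * hh + DK * C + (C0 - δK)) =
          δ + U + n * (n0 * hh) + DK * n0 * C + n0 * (C0 - δK) := by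
        field_simp
      rw [e6, e7]
      linarith
    have m5 := le_of_mul_le_mul_left m4 hn0p
    have hmnr : (m : ℝ) + n ≤ d * (k - 1) + 1 := by
      have : ((m + n : ℕ) : ℝ) ≤ ((d * (k - 1) + 1 : ℕ) : ℝ) := by exact_mod_cast hmn
      push_cast [Nat.cast_sub (by omega : 1 ≤ k)] at this
      exact this
    have m6 : ((m : ℝ) - 1 - ε) * hh ≤ (((k : ℝ) - 1 - ε') * d - n) * hh := by
      apply mul_le_mul_of_nonneg_right _ hh0
      have : ((k : ℝ) - 1 - ε') * (d : ℝ) = d * (k - 1) - ε' * d := by ring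
      rw [this]
      linarith
    have m7 : ((k : ℝ) - 1 - ε') * (DK * C) ≤ k * (DK * C) := by
      apply mul_le_mul_of_nonneg_right _ hDC
      linarith
    have e8 : ((k : ℝ) - 1 - ε') * (d * hh - DK * C) =
        (((k : ℝ) - 1 - ε') * d) * hh - ((k : ℝ) - 1 - ε') * (DK * C) := by ring
    rw [e8] at m5
    have e9 : (((k : ℝ) - 1 - ε') * d - n) * hh = (((k : ℝ) - 1 - ε') * d) * hh - n * hh := by ring
    rw [e9] at m6
    have e10 : ((k : ℝ) + 1) * (DK * C) = k * (DK * C) + DK * C := by ring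
    rw [e10]
    linarith

theorem mono {r m : ℕ} (a : Fin m → K) {T T' : Set (AlgebraicClosure K)} (h : T ⊆ T')
    (H : Vojta r a T') : Vojta r a T := by
  intro S ε hε
  obtain ⟨C, hC⟩ := H S ε hε
  exact ⟨C, fun t ht hta => hC t (h ht) hta⟩

theorem iter {p q : K[X]} {d : ℕ} {k : ℕ} (hk : 2 ≤ k) {b : Fin k → K}
    (hf : IsUnramified p q d b) (hb1 : Function.Injective b)
    (hb2 : ∀ i, (q * ∏ j, (p - C (b j) * q)).eval (b i) = 0) (r n : ℕ) :
    Vojta r b Set.univ ↔ Vojta r b (Iter r p q n) := by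
  refine ⟨mono b (Set.subset_univ _), fun H => ?_⟩
  induction n with
  | zero =>
    intro S ε hε
    obtain ⟨C, hC⟩ := H S ε hε
    exact ⟨C, fun t _ htr => hC t htr htr⟩
  | succ n ih =>
    refine ih (main hk hf r _ b hb1 hb2 (mono b ?_ H))
    rintro y ⟨t, ht, h1, h2⟩
    exact ⟨t, ht.1, h1, h2⟩

/-- (1) Let `f = p / q` be unramified outside `D = {b 1, …, b k, ∞}`, `k ≥ 2`, with `f(∞) ∈ D`, and
let `a 1, …, a m ∈ K` be distinct points with `f (a i) ∈ D`. For all `r` and all sets `T` of algebraic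
numbers, the truncated Vojta inequality for `D` at the points `f(t)`, `t ∈ T` of degree at most `r`,
implies the truncated Vojta inequality for `{a 1, …, a m, ∞}` at the points `t ∈ T` of degree at
most `r`.
(2) If moreover `f` maps `D` to itself, then for all `r` and `n` the truncated Vojta inequality for
`D` at the points of degree at most `r` is equivalent to its restriction to the values of the iterate
`f^n` at the points of degree at most `r`.
(3) In particular, for `l ∈ K` different from `0, 1` this holds for `D = {0, 1, l, ∞}` and the Lattès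
map `(x ^ 2 - l) ^ 2 / (4 x (x - 1) (x - l))`. -/
theorem result (K : Type) [Field K] [NumberField K] (r : ℕ) :
    (∀ (k d : ℕ) (b : Fin k → K) (p q : K[X]), 2 ≤ k → IsUnramified p q d b →
      ∀ (T : Set (AlgebraicClosure K)) (m : ℕ) (a : Fin m → K), Function.Injective a →
        (∀ i, (q * ∏ j, (p - C (b j) * q)).eval (a i) = 0) →
        Vojta r b (Values p q {t | t ∈ T ∧ deg t ≤ r}) → Vojta r a T) ∧
    (∀ (k d : ℕ) (b : Fin k → K) (p q : K[X]), 2 ≤ k → IsUnramified p q d b →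
      Function.Injective b → (∀ i, (q * ∏ j, (p - C (b j) * q)).eval (b i) = 0) →
      ∀ n : ℕ, Vojta r b Set.univ ↔ Vojta r b (Iter r p q n)) ∧
    (∀ l : K, l ≠ 0 → l ≠ 1 → ∀ n : ℕ,
      Vojta r ![0, 1, l] Set.univ ↔
        Vojta r ![0, 1, l] (Iter r ((X ^ 2 - C l) ^ 2) (4 * X * (X - 1) * (X - C l)) n)) := by
  refine ⟨fun k d b p q hk hf T m a ha1 ha2 H => main hk hf r T a ha1 ha2 H,
    fun k d b p q hk hf hb1 hb2 n => iter hk hf hb1 hb2 r n, fun l h0 h1 n => ?_⟩
  have hdegp : (Q265.BM.Lp l).natDegree = 4 := by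
    unfold Q265.BM.Lp
    rw [natDegree_pow, natDegree_X_pow_sub_C]
  have hdegq : (Q265.BM.Lq l).natDegree ≤ 4 := by
    unfold Q265.BM.Lq
    have e4 : (4 : K[X]) = C 4 := (map_ofNat C 4).symm
    have d1 : (X - 1 : K[X]).natDegree ≤ 1 := by
      have := natDegree_X_sub_C_le (1 : K)
      rwa [C_1] at this
    have d2 : (X - C l : K[X]).natDegree ≤ 1 := natDegree_X_sub_C_le l
    have d0 : (4 * X : K[X]).natDegree ≤ 1 := by
      rw [e4]
      exact (natDegree_C_mul_le _ _).trans natDegree_X_le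
    have k1 := natDegree_mul_le (p := (4 * X : K[X])) (q := X - 1)
    have k2 := natDegree_mul_le (p := (4 * X * (X - 1) : K[X])) (q := X - C l)
    omega
  have hf : IsUnramified (Q265.BM.Lp l) (Q265.BM.Lq l) 4 ![0, 1, l] :=
    ⟨Q265.BM.lat_cop h0 h1, by norm_num, hdegp.le, hdegq, Or.inl hdegp, Q265.BM.lat_roots l⟩
  refine iter (k := 3) (by norm_num) hf ?_ ?_ r n
  · intro i j hij
    fin_cases i <;> fin_cases j <;> simp_all [eq_comm]
  · intro i
    have : (Q265.BM.Lq l).eval (![0, 1, l] i) = 0 := by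
      unfold Q265.BM.Lq
      fin_cases i <;> simp
    rw [eval_mul, this, zero_mul]

end Pool.Agent.Results.MP_44a246_nt.TruncatedInBoundedDegree
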