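import Pool.Agent.Q265.BM.Lat

/-!
# The truncated Vojta inequality on the projective line and maps unramified outside `D`

Let `D` be a finite set of `K`-rational points of the projective line, containing `∞`, and let `f` be
a rational function over the number field `K` which is unramified outside `D` (with `f(∞) ∈ D`). The
truncated Vojta inequality for `D` at the points `f(t)`, `t ∈ T`, implies the truncated Vojta
inequality for the rational points over `D` at the points of `T`. If `f(D) ⊆ D` (for example if `f` is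
a Lattès map, a power map or a Chebyshev polynomial), then the inequality for `D` at all points is
equivalent to the inequality for `D` at the values of an iterate `f^n`, for every `n`.
-/

set_option autoImplicit false

open NumberField Polynomial Height

namespace Pool.Agent.Results.MP_9ec3f0_nt.UnramifiedMaps

variable {K : Type} [Field K] [NumberField K]

/-- The points `[t : 1]` and `[a : 1]` coincide modulo the prime of `v`. -/
def Meets (v : FinitePlace K) (a t : K) : Prop := v (t - a) < max (v t) 1 * max (v a) 1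

/-- The truncated counting function `N_S⁽¹⁾(D, t)` for `D = {a 1, …, a m, ∞}`: the sum of `log N(𝔭)`
over the primes outside `S` at which `t` meets `D` (`t` meets `∞` if `1 < v t`). -/
noncomputable def N1 (S : Finset (FinitePlace K)) {m : ℕ} (a : Fin m → K) (t : K) : ℝ :=
  ∑ᶠ v ∈ {v : FinitePlace K | v ∉ S ∧ ((∃ i, Meets v (a i) t) ∨ 1 < v t)},
    Real.log ((Ideal.absNorm v.maximalIdeal.asIdeal : ℕ) : ℝ)

/-- The truncated Vojta inequality on the projective line for the divisor `D = {a 1, …, a m, ∞}`,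
where `K_X + D` has degree `m + 1 - 2`, all `S` and all `ε`, at the points `t` of the set `T` outside
`D`; the height is taken relative to `K`. -/
def Vojta {m : ℕ} (a : Fin m → K) (T : Set K) : Prop :=
  ∀ S : Finset (FinitePlace K), ∀ ε : ℝ, 0 < ε → ∃ C : ℝ, ∀ t ∈ T, (∀ i, t ≠ a i) →
    (((m + 1 : ℕ) : ℝ) - 2) * logHeight₁ t - ε * logHeight₁ t - C ≤ N1 S a t

/-- The rational function `f = p / q` has degree `d ≥ 1`, and there are at most `d (k - 1) + 1`
points other than `∞` over the algebraic closure which `f` maps to `D = {b 1, …, b k, ∞}`. By the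
formula of Riemann and Hurwitz this means that `f` is unramified outside `D` and that `f(∞) ∈ D`. -/
def IsUnramified (p q : K[X]) (d : ℕ) {k : ℕ} (b : Fin k → K) : Prop :=
  IsCoprime p q ∧ 1 ≤ d ∧ p.natDegree ≤ d ∧ q.natDegree ≤ d ∧ (p.natDegree = d ∨ q.natDegree = d) ∧
    ((q * ∏ j, (p - C (b j) * q)).rootSet (AlgebraicClosure K)).ncard ≤ d * (k - 1) + 1

/-- the values of `f = p / q` on the set `T` -/
def Values (p q : K[X]) (T : Set K) : Set K :=
  {y | ∃ t ∈ T, q.eval t ≠ 0 ∧ y = p.eval t / q.eval t}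

/-- the values of the `n`-th iterate of `f = p / q` on `K` -/
def Iter (p q : K[X]) : ℕ → Set K
  | 0 => Set.univ
  | n + 1 => Values p q (Iter p q n)

theorem sum_eq (T : Set (FinitePlace K)) :
    (∑ᶠ v ∈ T, Real.log ((Ideal.absNorm v.maximalIdeal.asIdeal : ℕ) : ℝ)) =
      Real.log (Q265.NF.PP T) := by
  unfold Q265.NF.PP
  rw [Real.log_finprod (fun v => lt_of_lt_of_le one_pos (Q241.AK.one_le_pr _ v))]
  refine finsum_congr fun v => ?_
  classical
  rw [finsum_eq_if]
  unfold Q241.AK.pr Q241.AK.N
  by_cases hv : v ∈ T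
  · rw [if_pos hv, if_pos hv]
  · rw [if_neg hv, if_neg hv, Real.log_one]

theorem iff_ineq {m : ℕ} (a : Fin m → K) (T : Set K) : Vojta a T ↔ Q265.BM.VIneq a T := by
  have e : ∀ (S : Finset (FinitePlace K)) (t : K),
      N1 S a t = Real.log (Q265.NF.PP (Q265.BM.Us S a t)) := fun S t => sum_eq _
  constructor
  · intro H S ε hε
    obtain ⟨C, hC⟩ := H S ε hε
    refine ⟨C, fun t ht hta => ?_⟩
    have h2 := hC t ht hta
    rw [e] at h2
    push_cast at h2
    linarith
  · intro H S ε hε
    obtain ⟨C, hC⟩ := H S ε hε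
    refine ⟨C, fun t ht hta => ?_⟩
    have h2 := hC t ht hta
    rw [e]
    push_cast
    linarith

theorem main {p q : K[X]} {d : ℕ} {k : ℕ} (hk : 2 ≤ k) {b : Fin k → K}
    (hf : IsUnramified p q d b) (T : Set K) {m : ℕ} (a : Fin m → K)
    (ha1 : Function.Injective a) (ha2 : ∀ i, (q * ∏ j, (p - C (b j) * q)).eval (a i) = 0)
    (H : Vojta b (Values p q T)) : Vojta a T := by
  obtain ⟨h1, h2, h3, h4, h5, h6⟩ := hf
  have hq0 : q ≠ 0 := by
    rintro rfl
    have e2 := natDegree_eq_zero_of_isUnit (isCoprime_zero_right.1 h1)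
    rw [natDegree_zero] at h5
    omega
  have hpj : ∀ j, p - C (b j) * q ≠ 0 := by
    intro j h
    have h7 : p = C (b j) * q := sub_eq_zero.1 h
    have hu : IsUnit q := by
      rw [h7] at h1
      exact isCoprime_self.1 (IsCoprime.of_mul_left_right h1)
    have e2 := natDegree_eq_zero_of_isUnit hu
    have e3 : p.natDegree = 0 := by
      rw [h7]
      have := natDegree_C_mul_le (b j) q
      omega
    omega
  have hne : q * ∏ j, (p - C (b j) * q) ≠ 0 :=
    mul_ne_zero hq0 (Finset.prod_ne_zero_iff.2 fun j _ => hpj j)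
  obtain ⟨r, NN, hr1, hr2, hr3⟩ := Q265.BM.exists_rad hne h6
  rw [iff_ineq] at H ⊢
  exact Q265.BM.general h2 h1 h3 h4 h5 hk b hr1 hr2 hne hr3 a ha1 ha2 T H

theorem mono {m : ℕ} (a : Fin m → K) {T T' : Set K} (h : T ⊆ T') (H : Vojta a T') :
    Vojta a T := by
  intro S ε hε
  obtain ⟨C, hC⟩ := H S ε hε
  exact ⟨C, fun t ht hta => hC t (h ht) hta⟩

theorem iter {p q : K[X]} {d : ℕ} {k : ℕ} (hk : 2 ≤ k) {b : Fin k → K}
    (hf : IsUnramified p q d b) (hb1 : Function.Injective b)
    (hb2 : ∀ i, (q * ∏ j, (p - C (b j) * q)).eval (b i) = 0) (n : ℕ) :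
    Vojta b Set.univ ↔ Vojta b (Iter p q n) := by
  refine ⟨mono b (Set.subset_univ _), fun H => ?_⟩
  induction n with
  | zero => exact H
  | succ n ih => exact ih (main hk hf _ b hb1 hb2 H)

/-- (1) Let `f = p / q` be unramified outside `D = {b 1, …, b k, ∞}`, `k ≥ 2`, with `f(∞) ∈ D`, and
let `a 1, …, a m ∈ K` be distinct points with `f (a i) ∈ D`. The truncated Vojta inequality for `D` at
the points `f(t)`, `t ∈ T`, implies the truncated Vojta inequality for `{a 1, …, a m, ∞}` at the
points `t ∈ T`.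
(2) If moreover `f` maps `D` to itself, then for every `n` the truncated Vojta inequality for `D` at
all points of `K` is equivalent to its restriction to the values of the iterate `f^n`.
(3) In particular, for `l ∈ K` different from `0, 1` the truncated Vojta inequality for
`{0, 1, l, ∞}` is equivalent to its restriction to the values of the `n`-th iterate of the Lattès map
`(x ^ 2 - l) ^ 2 / (4 x (x - 1) (x - l))`, for every `n`. -/
theorem result (K : Type) [Field K] [NumberField K] :
    (∀ (k d : ℕ) (b : Fin k → K) (p q : K[X]), 2 ≤ k → IsUnramified p q d b →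
      ∀ (T : Set K) (m : ℕ) (a : Fin m → K), Function.Injective a →
        (∀ i, (q * ∏ j, (p - C (b j) * q)).eval (a i) = 0) →
        Vojta b (Values p q T) → Vojta a T) ∧
    (∀ (k d : ℕ) (b : Fin k → K) (p q : K[X]), 2 ≤ k → IsUnramified p q d b →
      Function.Injective b → (∀ i, (q * ∏ j, (p - C (b j) * q)).eval (b i) = 0) →
      ∀ n : ℕ, Vojta b Set.univ ↔ Vojta b (Iter p q n)) ∧
    (∀ l : K, l ≠ 0 → l ≠ 1 → ∀ n : ℕ,
      Vojta ![0, 1, l] Set.univ ↔
        Vojta ![0, 1, l] (Iter ((X ^ 2 - C l) ^ 2) (4 * X * (X - 1) * (X - C l)) n)) := by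
  refine ⟨fun k d b p q hk hf T m a ha1 ha2 H => main hk hf T a ha1 ha2 H,
    fun k d b p q hk hf hb1 hb2 n => iter hk hf hb1 hb2 n, fun l h0 h1 n => ?_⟩
  have hdegp : (Q265.BM.Lp l).natDegree = 4 := by
    unfold Q265.BM.Lp
    rw [natDegree_pow, natDegree_X_pow_sub_C]
  have hdegq : (Q265.BM.Lq l).natDegree ≤ 4 := by
    unfold Q265.BM.Lq
    have e4 : (4 : K[X]) = C 4 := (map_ofNat C 4).symm
    have d1 : (X - 1 : K[X]).natDegree ≤ 1 := by
      have := natDegree_X_sub_C_le (1 : K)
      rwa [C_1] at this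
    have d2 : (X - C l : K[X]).natDegree ≤ 1 := natDegree_X_sub_C_le l
    have d0 : (4 * X : K[X]).natDegree ≤ 1 := by
      rw [e4]
      exact (natDegree_C_mul_le _ _).trans natDegree_X_le
    have k1 := natDegree_mul_le (p := (4 * X : K[X])) (q := X - 1)
    have k2 := natDegree_mul_le (p := (4 * X * (X - 1) : K[X])) (q := X - C l)
    omega
  have hf : IsUnramified (Q265.BM.Lp l) (Q265.BM.Lq l) 4 ![0, 1, l] :=
    ⟨Q265.BM.lat_cop h0 h1, by norm_num, hdegp.le, hdegq, Or.inl hdegp, Q265.BM.lat_roots l⟩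
  refine iter (k := 3) (by norm_num) hf ?_ ?_ n
  · intro i j hij
    fin_cases i <;> fin_cases j <;> simp_all [eq_comm]
  · intro i
    have : (Q265.BM.Lq l).eval (![0, 1, l] i) = 0 := by
      unfold Q265.BM.Lq
      fin_cases i <;> simp
    rw [eval_mul, this, zero_mul]

end Pool.Agent.Results.MP_9ec3f0_nt.UnramifiedMaps
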